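import Pool.Agent.Y301.SA.Quad

/-!
# Convergence of the forms under convergence of the test functions (project SA)
-/

set_option autoImplicit false

open MeasureTheory ProbabilityTheory Set Filter Topology
open scoped NNReal ENNReal Matrix

namespace Pool.Agent.Y301.SA

open Pool.Agent.Y782.SA

variable {E : Type} [NormedAddCommGroup E] [InnerProductSpace ℝ E]

theorem deriv_eq_of_eqOn {f g : ℝ → E} (h : ∀ x, 0 ≤ x → f x = g x) {x : ℝ} (hx : 0 < x) :
    deriv f x = deriv g x := by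
  apply Filter.EventuallyEq.deriv_eq
  filter_upwards [Ioi_mem_nhds hx] with y hy
  exact h y (le_of_lt hy)

theorem form_congr (κ : ℝ) (S : E →L[ℝ] E) (W : ℝ → E →L[ℝ] E) {f g : ℝ → E}
    (h : ∀ x, 0 ≤ x → f x = g x) : form κ S W f = form κ S W g := by
  have h1 : dsq f = dsq g := setIntegral_congr_fun measurableSet_Ioi fun x hx => by
    simp only [deriv_eq_of_eqOn h hx]
  have h2 : xsq f = xsq g := setIntegral_congr_fun measurableSet_Ioi fun x hx => by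
    simp only [h x (le_of_lt hx)]
  have h3 : ∫ x in Ioi (0 : ℝ), inner ℝ (deriv f x) (W x (f x)) =
      ∫ x in Ioi (0 : ℝ), inner ℝ (deriv g x) (W x (g x)) :=
    setIntegral_congr_fun measurableSet_Ioi fun x hx => by
      simp only [h x (le_of_lt hx), deriv_eq_of_eqOn h hx]
  unfold form
  rw [h1, h2, h3, h 0 le_rfl]

omit [InnerProductSpace ℝ E] in
theorem nsq_congr {f g : ℝ → E} (h : ∀ x, 0 ≤ x → f x = g x) : nsq f = nsq g :=
  setIntegral_congr_fun measurableSet_Ioi fun x hx => by simp only [h x (le_of_lt hx)]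

theorem tc {f : ℝ → E} (hf : IsTest f) : Continuous f := hf.1.continuous

theorem td {f : ℝ → E} (hf : IsTest f) : Continuous (deriv f) :=
  hf.1.continuous_deriv le_rfl

theorem nsq_pos {f : ℝ → E} (hf : IsTest f) {x : ℝ} (hx : 0 ≤ x) (hfx : f x ≠ 0) : 0 < nsq f := by
  have hc : Continuous (fun y => ‖f y‖ ^ 2) := ((tc hf).norm).pow 2
  have hcs : HasCompactSupport (fun y => ‖f y‖ ^ 2) := by
    apply hf.2.comp_left (g := fun v : E => ‖v‖ ^ 2)
    simp
  have hint : IntegrableOn (fun y => ‖f y‖ ^ 2) (Ioi (0 : ℝ)) :=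
    (hc.integrable_of_hasCompactSupport hcs).integrableOn
  unfold nsq
  rw [setIntegral_pos_iff_support_of_nonneg_ae
    (Filter.Eventually.of_forall fun y => sq_nonneg _) hint]
  have hopen : IsOpen (Function.support (fun y => ‖f y‖ ^ 2) ∩ Ioi (0 : ℝ)) :=
    hc.isOpen_support.inter isOpen_Ioi
  refine hopen.measure_pos volume ?_
  have hnx : {y | f y ≠ 0} ∈ 𝓝 x := (isOpen_ne_fun (tc hf) continuous_const).mem_nhds hfx
  have hnx2 : ∀ᶠ y in 𝓝[>] x, f y ≠ 0 := nhdsWithin_le_nhds hnx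
  have hnx3 : ∀ᶠ y in 𝓝[>] x, y ∈ Ioi x := self_mem_nhdsWithin
  obtain ⟨y, hy1, hy2⟩ := (hnx2.and hnx3).exists
  refine ⟨y, ?_, ?_⟩
  · simp only [Function.mem_support]
    exact pow_ne_zero 2 (norm_ne_zero_iff.2 hy1)
  · exact lt_of_le_of_lt hx hy2

/-- Dominated convergence on `(0, L]`. -/
theorem dct {Fn : ℕ → ℝ → ℝ} {F : ℝ → ℝ} (K L : ℝ)
    (hmeas : ∀ n, AEStronglyMeasurable (Fn n) (volume.restrict (Ioi (0 : ℝ))))
    (h0 : ∀ n x, L < x → Fn n x = 0) (hb : ∀ n x, 0 < x → x ≤ L → |Fn n x| ≤ K)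
    (hlim : ∀ x, 0 < x → x ≤ L → Tendsto (fun n => Fn n x) atTop (𝓝 (F x)))
    (hF0 : ∀ x, L < x → F x = 0) :
    Tendsto (fun n => ∫ x in Ioi (0 : ℝ), Fn n x) atTop (𝓝 (∫ x in Ioi (0 : ℝ), F x)) := by
  apply tendsto_integral_of_dominated_convergence ((Ioc 0 L).indicator fun _ => K) hmeas
  · have h1 : IntegrableOn ((Ioc 0 L).indicator fun _ => K) (Ioi (0 : ℝ)) := by
      apply Integrable.integrableOn
      rw [integrable_indicator_iff measurableSet_Ioc]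
      exact integrableOn_const (by simp)
    exact h1
  · intro n
    filter_upwards [ae_restrict_mem measurableSet_Ioi] with x hx
    have hx' : (0 : ℝ) < x := hx
    rw [Real.norm_eq_abs]
    by_cases hxL : x ≤ L
    · rw [indicator_of_mem (show x ∈ Ioc 0 L from ⟨hx', hxL⟩)]
      exact hb n x hx' hxL
    · rw [indicator_of_notMem (fun h => hxL h.2), h0 n x (not_le.1 hxL), abs_zero]
  · filter_upwards [ae_restrict_mem measurableSet_Ioi] with x hx
    have hx' : (0 : ℝ) < x := hx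
    by_cases hxL : x ≤ L
    · exact hlim x hx' hxL
    · rw [hF0 x (not_le.1 hxL)]
      simp only [h0 _ x (not_le.1 hxL)]
      exact tendsto_const_nhds

/-- `F n` converges to `f` in `C¹([0, L])`. -/
structure Cv (L : ℝ) (F : ℕ → ℝ → E) (f : ℝ → E) : Prop where
  mem : ∀ n, F n ∈ tstL E L
  mem' : f ∈ tstL E L
  err : ∀ n : ℕ, ∀ x ∈ Icc 0 L, ‖F n x - f x‖ ≤ 1 / ((n : ℝ) + 1) ∧
    ‖deriv (F n) x - deriv f x‖ ≤ 1 / ((n : ℝ) + 1)

theorem tendsto_of_err {V : Type} [NormedAddCommGroup V] {u : ℕ → V} {v : V}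
    (h : ∀ n : ℕ, ‖u n - v‖ ≤ 1 / ((n : ℝ) + 1)) : Tendsto u atTop (𝓝 v) := by
  rw [tendsto_iff_norm_sub_tendsto_zero]
  exact squeeze_zero (fun _ => norm_nonneg _) h tendsto_one_div_add_atTop_nhds_zero_nat

variable {L : ℝ} {F : ℕ → ℝ → E} {f : ℝ → E}

theorem Cv.lim (h : Cv L F f) {x : ℝ} (hx : x ∈ Icc 0 L) :
    Tendsto (fun n => F n x) atTop (𝓝 (f x)) := tendsto_of_err fun n => (h.err n x hx).1

theorem Cv.limd (h : Cv L F f) {x : ℝ} (hx : x ∈ Icc 0 L) :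
    Tendsto (fun n => deriv (F n) x) atTop (𝓝 (deriv f x)) :=
  tendsto_of_err fun n => (h.err n x hx).2

theorem deriv_zero_of_tstL {f : ℝ → E} (hf : f ∈ tstL E L) {x : ℝ} (hx : L < x) :
    deriv f x = 0 := by
  have : f =ᶠ[𝓝 x] fun _ => 0 := by
    filter_upwards [Ioi_mem_nhds hx] with y hy
    exact hf.2 y (le_of_lt hy)
  rw [this.deriv_eq, deriv_const]

theorem Cv.bound (h : Cv L F f) : ∃ A : ℝ, 0 ≤ A ∧ ∀ n, ∀ x ∈ Icc 0 L,
    ‖F n x‖ ≤ A ∧ ‖deriv (F n) x‖ ≤ A := by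
  obtain ⟨A1, hA1⟩ := (isCompact_Icc (a := (0 : ℝ)) (b := L)).exists_bound_of_continuousOn
    (tc h.mem'.1).continuousOn
  obtain ⟨A2, hA2⟩ := (isCompact_Icc (a := (0 : ℝ)) (b := L)).exists_bound_of_continuousOn
    (td h.mem'.1).continuousOn
  refine ⟨max (max A1 A2) 0 + 1, by positivity, fun n x hx => ?_⟩
  have h1 : 1 / ((n : ℝ) + 1) ≤ 1 := by
    rw [div_le_one (by positivity)]
    have : (0 : ℝ) ≤ n := Nat.cast_nonneg n
    linarith
  obtain ⟨e1, e2⟩ := h.err n x hx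
  have h2 := hA1 x hx
  have h3 := hA2 x hx
  have h4 : A1 ≤ max (max A1 A2) 0 := (le_max_left _ _).trans (le_max_left _ _)
  have h5 : A2 ≤ max (max A1 A2) 0 := (le_max_right _ _).trans (le_max_left _ _)
  constructor
  · have := norm_le_norm_add_norm_sub' (F n x) (f x)
    linarith
  · have := norm_le_norm_add_norm_sub' (deriv (F n) x) (deriv f x)
    linarith

theorem meas_W {W : ℝ → E →L[ℝ] E} (hW : StronglyMeasurable W) {g : ℝ → E}
    (hgm : StronglyMeasurable g) : StronglyMeasurable fun x => W x (g x) := by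
  have h1 : Continuous (fun p : (E →L[ℝ] E) × E => p.1 p.2) := isBoundedBilinearMap_apply.continuous
  exact h1.comp_stronglyMeasurable (hW.prodMk hgm)

section fd

variable [FiniteDimensional ℝ E]

theorem sm {g : ℝ → E} (hg : Continuous g) : StronglyMeasurable g := hg.stronglyMeasurable

theorem inner_bd {a b : E} {A B : ℝ} (ha : ‖a‖ ≤ A) (hb : ‖b‖ ≤ B) : |inner ℝ a b| ≤ A * B :=
  (abs_real_inner_le_norm a b).trans (mul_le_mul ha hb (norm_nonneg _) ((norm_nonneg _).trans ha))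

/-- Convergence of the Gram matrix. -/
theorem gram_tendsto {G : ℕ → ℝ → E} {g : ℝ → E} (hf : Cv L F f) (hg : Cv L G g) :
    Tendsto (fun n => gram (F n) (G n)) atTop (𝓝 (gram f g)) := by
  obtain ⟨A, hA0, hA⟩ := hf.bound
  obtain ⟨B, hB0, hB⟩ := hg.bound
  unfold gram
  refine dct (A * B) L (fun n => ?_) (fun n x hx => ?_) (fun n x hx hxL => ?_)
    (fun x hx hxL => ?_) (fun x hx => ?_)
  · exact ((tc (hf.mem n).1).inner (tc (hg.mem n).1)).aestronglyMeasurable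
  · rw [(hf.mem n).2 x hx.le, inner_zero_left]
  · exact inner_bd (hA n x ⟨hx.le, hxL⟩).1 (hB n x ⟨hx.le, hxL⟩).1
  · exact (hf.lim ⟨hx.le, hxL⟩).inner (hg.lim ⟨hx.le, hxL⟩)
  · rw [hf.mem'.2 x hx.le, inner_zero_left]

/-- Convergence of the form. -/
theorem bform_tendsto {G : ℕ → ℝ → E} {g : ℝ → E} (κ : ℝ) (S : E →L[ℝ] E) {W : ℝ → E →L[ℝ] E}
    (hL : 0 < L) (hW : GoodW W) (hf : Cv L F f) (hg : Cv L G g) :
    Tendsto (fun n => bform κ S W (F n) (G n)) atTop (𝓝 (bform κ S W f g)) := by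
  obtain ⟨A, hA0, hA⟩ := hf.bound
  obtain ⟨B, hB0, hB⟩ := hg.bound
  obtain ⟨D, hD⟩ := hW.bdd L
  have hD0 : 0 ≤ D := (norm_nonneg _).trans (hD 0 ⟨le_rfl, hL.le⟩)
  unfold bform
  refine Tendsto.sub (Tendsto.add (Tendsto.add ?_ (Tendsto.const_mul κ ?_)) ?_) ?_
  · refine dct (A * B) L (fun n => ?_) (fun n x hx => ?_) (fun n x hx hxL => ?_)
      (fun x hx hxL => ?_) (fun x hx => ?_)
    · exact ((td (hf.mem n).1).inner (td (hg.mem n).1)).aestronglyMeasurable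
    · rw [deriv_zero_of_tstL (hf.mem n) hx, inner_zero_left]
    · exact inner_bd (hA n x ⟨hx.le, hxL⟩).2 (hB n x ⟨hx.le, hxL⟩).2
    · exact (hf.limd ⟨hx.le, hxL⟩).inner (hg.limd ⟨hx.le, hxL⟩)
    · rw [deriv_zero_of_tstL hf.mem' hx, inner_zero_left]
  · refine dct (L * (A * B)) L (fun n => ?_) (fun n x hx => ?_) (fun n x hx hxL => ?_)
      (fun x hx hxL => ?_) (fun x hx => ?_)
    · exact (continuous_id.mul
        ((tc (hf.mem n).1).inner (tc (hg.mem n).1))).aestronglyMeasurable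
    · rw [(hf.mem n).2 x hx.le, inner_zero_left, mul_zero]
    · rw [abs_mul, abs_of_pos hx]
      exact mul_le_mul hxL (inner_bd (hA n x ⟨hx.le, hxL⟩).1 (hB n x ⟨hx.le, hxL⟩).1)
        (abs_nonneg _) hL.le
    · exact ((hf.lim ⟨hx.le, hxL⟩).inner (hg.lim ⟨hx.le, hxL⟩)).const_mul x
    · rw [hf.mem'.2 x hx.le, inner_zero_left, mul_zero]
  · have h0 : (0 : ℝ) ∈ Icc 0 L := ⟨le_rfl, hL.le⟩
    exact ((S.continuous.tendsto _).comp (hf.lim h0)).inner (hg.lim h0)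
  · refine dct (A * (D * B) + B * (D * A)) L (fun n => ?_) (fun n x hx => ?_)
      (fun n x hx hxL => ?_) (fun x hx hxL => ?_) (fun x hx => ?_)
    · have e1 := meas_W hW.meas (sm (tc (hg.mem n).1))
      have e2 := meas_W hW.meas (sm (tc (hf.mem n).1))
      exact (((sm (td (hf.mem n).1)).inner e1).add
        ((sm (td (hg.mem n).1)).inner e2)).aestronglyMeasurable
    · rw [deriv_zero_of_tstL (hf.mem n) hx, deriv_zero_of_tstL (hg.mem n) hx, inner_zero_left,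
        inner_zero_left, add_zero]
    · have hxI : x ∈ Icc 0 L := ⟨hx.le, hxL⟩
      have e1 : ‖W x (G n x)‖ ≤ D * B := ((W x).le_opNorm _).trans
        (mul_le_mul (hD x hxI) (hB n x hxI).1 (norm_nonneg _) hD0)
      have e2 : ‖W x (F n x)‖ ≤ D * A := ((W x).le_opNorm _).trans
        (mul_le_mul (hD x hxI) (hA n x hxI).1 (norm_nonneg _) hD0)
      exact (abs_add_le _ _).trans (add_le_add (inner_bd (hA n x hxI).2 e1)
        (inner_bd (hB n x hxI).2 e2))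
    · have hxI : x ∈ Icc 0 L := ⟨hx.le, hxL⟩
      exact ((hf.limd hxI).inner (((W x).continuous.tendsto _).comp (hg.lim hxI))).add
        ((hg.limd hxI).inner (((W x).continuous.tendsto _).comp (hf.lim hxI)))
    · rw [deriv_zero_of_tstL hf.mem' hx, deriv_zero_of_tstL hg.mem' hx, inner_zero_left,
        inner_zero_left, add_zero]

end fd

/-- The abstract perturbation argument. -/
theorem pert_qf {m : ℕ} {Qn Gn : ℕ → Matrix (Fin m) (Fin m) ℝ} {Q G : Matrix (Fin m) (Fin m) ℝ}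
    (hQ : ∀ i j, Tendsto (fun n => Qn n i j) atTop (𝓝 (Q i j)))
    (hG : ∀ i j, Tendsto (fun n => Gn n i j) atTop (𝓝 (G i j)))
    (hpos : ∀ c, c ≠ 0 → 0 < qf G c) {s e : ℝ} (he : 0 < e) (hs : ∀ c, qf Q c ≤ s * qf G c) :
    ∀ᶠ n in atTop, ∀ c, c ≠ 0 → 0 < qf (Gn n) c ∧ qf (Qn n) c ≤ (s + e) * qf (Gn n) c := by
  obtain ⟨δ, hδ, hlow⟩ := quad_lower (continuous_qf G) (qf_smul G) hpos
  have hlim : ∀ {Mn : ℕ → Matrix (Fin m) (Fin m) ℝ} {M : Matrix (Fin m) (Fin m) ℝ},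
      (∀ i j, Tendsto (fun n => Mn n i j) atTop (𝓝 (M i j))) →
      Tendsto (fun n => ∑ i, ∑ j, |(Mn n - M) i j|) atTop (𝓝 0) := by
    intro Mn M hM
    have h1 : Tendsto (fun n => ∑ i, ∑ j, |(Mn n - M) i j|) atTop
        (𝓝 (∑ i : Fin m, ∑ j : Fin m, |M i j - M i j|)) := by
      refine tendsto_finsetSum _ fun i _ => tendsto_finsetSum _ fun j _ => ?_
      exact ((hM i j).sub_const _).abs
    simpa using h1
  have hη := hlim hQ
  have hθ := hlim hG
  have h1 : ∀ᶠ n in atTop, (∑ i, ∑ j, |(Gn n - G) i j|) < δ / 2 :=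
    hθ.eventually_lt_const (by positivity)
  have h2 : Tendsto (fun n => |s| * (∑ i, ∑ j, |(Gn n - G) i j|) +
      ∑ i, ∑ j, |(Qn n - Q) i j|) atTop (𝓝 0) := by
    have := (hθ.const_mul |s|).add hη
    simpa using this
  have h3 : ∀ᶠ n in atTop, |s| * (∑ i, ∑ j, |(Gn n - G) i j|) +
      ∑ i, ∑ j, |(Qn n - Q) i j| < e * (δ / 2) := h2.eventually_lt_const (by positivity)
  filter_upwards [h1, h3] with n hn1 hn3 c hc
  have hcn : 0 < ‖c‖ := norm_pos_iff.2 hc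
  have a1 := abs_qf_le (Gn n - G) c
  have a2 := abs_qf_le (Qn n - Q) c
  rw [qf_sub, abs_le] at a1 a2
  set θ := ∑ i, ∑ j, |(Gn n - G) i j| with hθd
  set η := ∑ i, ∑ j, |(Qn n - Q) i j| with hηd
  have a3 := hlow c
  have hc2 : 0 < ‖c‖ ^ 2 := by positivity
  have hg : δ / 2 * ‖c‖ ^ 2 ≤ qf (Gn n) c := by nlinarith [a1.1]
  refine ⟨lt_of_lt_of_le (by positivity) hg, ?_⟩
  have b1 : s * qf G c ≤ s * qf (Gn n) c + |s| * θ * ‖c‖ ^ 2 := by
    have : s * (qf G c - qf (Gn n) c) ≤ |s| * (θ * ‖c‖ ^ 2) := by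
      refine (le_abs_self _).trans ?_
      rw [abs_mul]
      apply mul_le_mul_of_nonneg_left _ (abs_nonneg _)
      rw [abs_le]
      constructor <;> linarith [a1.1, a1.2]
    linarith
  have b2 := hs c
  have b3 : (|s| * θ + η) * ‖c‖ ^ 2 ≤ e * (δ / 2) * ‖c‖ ^ 2 :=
    mul_le_mul_of_nonneg_right hn3.le hc2.le
  have b4 : e * (δ / 2 * ‖c‖ ^ 2) ≤ e * qf (Gn n) c := mul_le_mul_of_nonneg_left hg he.le
  nlinarith [a2.2]

end Pool.Agent.Y301.SA
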