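import Pool.Agent.Y301.SA.Quad

/-!
# The log-determinant as a linear statistic of the min-max values (project SA: `S_EIG`, `S_LCONT`)
-/

set_option autoImplicit false

open MeasureTheory ProbabilityTheory Set Filter Topology
open scoped NNReal ENNReal Matrix

namespace Pool.Agent.Y301.SA

open Pool.Agent.Y782.SA

/-- Real spectral theorem. -/
theorem spec {m : ℕ} (A : Matrix (Fin m) (Fin m) ℝ) (hA : A.IsSymm) :
    ∃ (U : Matrix (Fin m) (Fin m) ℝ) (d : Fin m → ℝ), Uᵀ * U = 1 ∧ Uᵀ * A * U =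
      Matrix.diagonal d := by
  have hH : A.IsHermitian := by
    rw [Matrix.IsHermitian, Matrix.conjTranspose_eq_transpose_of_trivial]
    exact hA
  refine ⟨(hH.eigenvectorUnitary : Matrix (Fin m) (Fin m) ℝ), hH.eigenvalues, ?_, ?_⟩
  · have h := Unitary.coe_star_mul_self hH.eigenvectorUnitary
    rwa [Matrix.star_eq_conjTranspose, Matrix.conjTranspose_eq_transpose_of_trivial] at h
  · have h := hH.conjStarAlgAut_star_eigenvectorUnitary
    rw [Unitary.conjStarAlgAut_star_apply, Matrix.star_eq_conjTranspose,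
      Matrix.conjTranspose_eq_transpose_of_trivial] at h
    rw [h]
    rfl

theorem sub3 {m : ℕ} (A G B : Matrix (Fin m) (Fin m) ℝ) (σ : Fin m → Fin m) :
    A.submatrix σ id * G * B.submatrix id σ = (A * G * B).submatrix σ σ := by
  ext i j
  simp [Matrix.mul_apply]

/-- Simultaneous diagonalisation. -/
theorem simdiag {m : ℕ} (Q G : Matrix (Fin m) (Fin m) ℝ) (hQ : Q.IsSymm) (hG : G.PosDef) :
    ∃ (P : Matrix (Fin m) (Fin m) ℝ) (d : Fin m → ℝ), Monotone d ∧ Pᵀ * G * P = 1 ∧
      Pᵀ * Q * P = Matrix.diagonal d := by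
  have hGs : G.IsSymm := by
    have := hG.isHermitian
    rwa [Matrix.IsHermitian, Matrix.conjTranspose_eq_transpose_of_trivial] at this
  obtain ⟨V, g, hV, hVg⟩ := spec G hGs
  have hV' : V * Vᵀ = 1 := mul_eq_one_comm.1 hV
  have hg : ∀ i, 0 < g i := by
    intro i
    have hne : V.mulVec (Pi.single i 1) ≠ 0 := by
      intro h0
      have h1 : Vᵀ.mulVec (V.mulVec (Pi.single i 1)) = 0 := by rw [h0, Matrix.mulVec_zero]
      rw [Matrix.mulVec_mulVec, hV, Matrix.one_mulVec] at h1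
      have := congrFun h1 i
      simp at this
    have h2 := posDef_qf hG _ hne
    have h3 : qf G (V.mulVec (Pi.single i 1)) = g i := by
      unfold qf
      rw [Matrix.mulVec_mulVec, ← Matrix.vecMul_transpose, ← Matrix.dotProduct_mulVec,
        Matrix.mulVec_mulVec, ← Matrix.mul_assoc, hVg, Matrix.mulVec_single_one]
      simp
    rwa [h3] at h2
  obtain ⟨R, hR⟩ : ∃ R : Matrix (Fin m) (Fin m) ℝ,
      R = V * Matrix.diagonal (fun i => (Real.sqrt (g i))⁻¹) := ⟨_, rfl⟩
  have hRT : Rᵀ = Matrix.diagonal (fun i => (Real.sqrt (g i))⁻¹) * Vᵀ := by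
    rw [hR, Matrix.transpose_mul, Matrix.diagonal_transpose]
  have hRG : Rᵀ * G * R = 1 := by
    rw [hRT, hR]
    have : Matrix.diagonal (fun i => (Real.sqrt (g i))⁻¹) * Vᵀ * G *
        (V * Matrix.diagonal (fun i => (Real.sqrt (g i))⁻¹)) =
        Matrix.diagonal (fun i => (Real.sqrt (g i))⁻¹) * (Vᵀ * G * V) *
          Matrix.diagonal (fun i => (Real.sqrt (g i))⁻¹) := by
      simp only [Matrix.mul_assoc]
    rw [this, hVg, Matrix.diagonal_mul_diagonal, Matrix.diagonal_mul_diagonal,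
      ← Matrix.diagonal_one]
    congr 1
    funext i
    have h1 := Real.mul_self_sqrt (hg i).le
    have h2 : Real.sqrt (g i) ≠ 0 := (Real.sqrt_pos.2 (hg i)).ne'
    field_simp
    rw [sq]
    exact h1.symm
  have hQs : (Rᵀ * Q * R).IsSymm := by
    rw [Matrix.IsSymm, Matrix.transpose_mul, Matrix.transpose_mul, Matrix.transpose_transpose,
      hQ.eq, ← Matrix.mul_assoc]
  obtain ⟨U, d, hU, hUd⟩ := spec _ hQs
  set σ := Tuple.sort d with hσ
  refine ⟨(R * U).submatrix id σ, d ∘ σ, Tuple.monotone_sort d, ?_, ?_⟩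
  · rw [Matrix.transpose_submatrix, sub3]
    have h2 : (R * U)ᵀ * G * (R * U) = Uᵀ * (Rᵀ * G * R) * U := by
      rw [Matrix.transpose_mul]; simp only [Matrix.mul_assoc]
    rw [h2, hRG, Matrix.mul_one, hU, Matrix.submatrix_one_equiv]
  · rw [Matrix.transpose_submatrix, sub3]
    have h2 : (R * U)ᵀ * Q * (R * U) = Uᵀ * (Rᵀ * Q * R) * U := by
      rw [Matrix.transpose_mul]; simp only [Matrix.mul_assoc]
    rw [h2, hUd, Matrix.submatrix_diagonal_equiv]

/-- Quadratic form after a change of variables. -/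
theorem qf_mulVec {m : ℕ} (A P : Matrix (Fin m) (Fin m) ℝ) (y : Fin m → ℝ) :
    qf A (P.mulVec y) = qf (Pᵀ * A * P) y := by
  unfold qf
  rw [← Matrix.mulVec_mulVec, ← Matrix.mulVec_mulVec, ← Matrix.vecMul_transpose,
    ← Matrix.dotProduct_mulVec]

theorem qf_diagonal {m : ℕ} (d : Fin m → ℝ) (y : Fin m → ℝ) :
    qf (Matrix.diagonal d) y = ∑ j, d j * y j ^ 2 := by
  unfold qf
  rw [dotProduct]
  refine Finset.sum_congr rfl fun j _ => ?_
  rw [Matrix.mulVec_diagonal]
  ring

theorem qf_one {m : ℕ} (y : Fin m → ℝ) : qf (1 : Matrix (Fin m) (Fin m) ℝ) y = ∑ j, y j ^ 2 := by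
  rw [← Matrix.diagonal_one, qf_diagonal]
  simp

/-- Courant-Fischer. -/
theorem lam_eq {m : ℕ} {Q G P : Matrix (Fin m) (Fin m) ℝ} {d : Fin m → ℝ} (hd : Monotone d)
    (hPG : Pᵀ * G * P = 1) (hPQ : Pᵀ * Q * P = Matrix.diagonal d) (k : Fin m) :
    lam ⊤ (qf Q) (qf G) k = d k := by
  have hG : ∀ y, qf G (P.mulVec y) = ∑ j, y j ^ 2 := fun y => by
    rw [qf_mulVec, hPG, qf_one]
  have hQ : ∀ y, qf Q (P.mulVec y) = ∑ j, d j * y j ^ 2 := fun y => by
    rw [qf_mulVec, hPQ, qf_diagonal]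
  have hPinv : (Pᵀ * G) * P = 1 := hPG
  have hPinv' : P * (Pᵀ * G) = 1 := mul_eq_one_comm.1 hPinv
  have hk : (k : ℕ) + 1 ≤ m := k.2
  apply IsLeast.csInf_eq
  constructor
  · refine ⟨fun i => P.mulVec (Pi.single (Fin.castLE hk i) 1), fun _ => Submodule.mem_top,
      fun c hc => ?_⟩
    have hsum : ∑ i, c i • P.mulVec (Pi.single (Fin.castLE hk i) (1 : ℝ)) =
        P.mulVec (pad hk c) := by
      rw [sum_pad hk c (fun j => P.mulVec (Pi.single j (1 : ℝ)))]
      have h1 : ∀ j, pad hk c j • P.mulVec (Pi.single j (1 : ℝ)) =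
          P.mulVecLin (pad hk c j • Pi.single j (1 : ℝ)) := by
        intro j
        rw [map_smul]
        rfl
      simp only [h1]
      rw [← map_sum, Matrix.mulVecLin_apply]
      congr 1
      funext j
      rw [Finset.sum_apply]
      simp [Pi.single_apply]
    rw [hsum, hG, hQ]
    constructor
    · have hne := pad_ne hk hc
      obtain ⟨j, hj⟩ := Function.ne_iff.1 hne
      exact Finset.sum_pos' (fun j _ => sq_nonneg _)
        ⟨j, Finset.mem_univ _, by have : pad hk c j ≠ 0 := hj; positivity⟩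
    · rw [Finset.mul_sum]
      refine Finset.sum_le_sum fun j _ => ?_
      by_cases hj : (j : ℕ) < k + 1
      · have : d j ≤ d k := hd (Fin.le_iff_val_le_val.2 (by omega))
        exact mul_le_mul_of_nonneg_right this (sq_nonneg _)
      · have : pad hk c j = 0 := by unfold pad; rw [dif_neg hj]
        rw [this]; simp
  · rintro s ⟨φ, -, hφ⟩
    set ψ : Fin (k + 1) → Fin m → ℝ := fun i => (Pᵀ * G).mulVec (φ i) with hψ
    have hφψ : ∀ i, φ i = P.mulVec (ψ i) := by
      intro i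
      rw [hψ]
      simp only [Matrix.mulVec_mulVec, hPinv', Matrix.one_mulVec]
    let T : (Fin (k + 1) → ℝ) →ₗ[ℝ] (Fin (k : ℕ) → ℝ) :=
      { toFun := fun c j => ∑ i, c i * ψ i (Fin.castLE (by omega) j)
        map_add' := by
          intro c c'
          funext j
          simp only [Pi.add_apply, add_mul, Finset.sum_add_distrib]
        map_smul' := by
          intro t c
          funext j
          simp only [Pi.smul_apply, smul_eq_mul, RingHom.id_apply, Finset.mul_sum, mul_assoc] }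
    have hker : LinearMap.ker T ≠ ⊥ := by
      apply LinearMap.ker_ne_bot_of_finrank_lt
      simp
    obtain ⟨c, hcT, hc0⟩ := (Submodule.ne_bot_iff _).1 hker
    rw [LinearMap.mem_ker] at hcT
    obtain ⟨h1, h2⟩ := hφ c hc0
    have hsum : ∑ i, c i • φ i = P.mulVec (∑ i, c i • ψ i) := by
      rw [← Matrix.mulVecLin_apply, map_sum]
      refine Finset.sum_congr rfl fun i _ => ?_
      rw [map_smul, Matrix.mulVecLin_apply, ← hφψ]
    rw [hsum, hG] at h1
    rw [hsum, hG, hQ] at h2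
    set y : Fin m → ℝ := ∑ i, c i • ψ i with hy
    have hy0 : ∀ j : Fin m, (j : ℕ) < k → y j = 0 := by
      intro j hj
      have := congrFun hcT ⟨j, hj⟩
      rw [hy, Finset.sum_apply]
      simpa [T] using this
    have h3 : d k * ∑ j, y j ^ 2 ≤ ∑ j, d j * y j ^ 2 := by
      rw [Finset.mul_sum]
      refine Finset.sum_le_sum fun j _ => ?_
      by_cases hj : (j : ℕ) < k
      · rw [hy0 j hj]; simp
      · have : d k ≤ d j := hd (Fin.le_iff_val_le_val.2 (by omega))
        exact mul_le_mul_of_nonneg_right this (sq_nonneg _)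
    exact le_of_mul_le_mul_right (h3.trans h2) h1

/-- The determinant of the pencil. -/
theorem logdet {m : ℕ} {Q G P : Matrix (Fin m) (Fin m) ℝ} {d : Fin m → ℝ}
    (hPG : Pᵀ * G * P = 1) (hPQ : Pᵀ * Q * P = Matrix.diagonal d) (M : ℝ) (hM : 1 ≤ M) :
    2 * Real.log |P.det| + Real.log ‖(Q.map (fun x : ℝ => (x : ℂ)) +
      (M * Complex.I : ℂ) • G.map (fun x : ℝ => (x : ℂ))).det‖ =
      ∑ j, 1 / 2 * Real.log (d j ^ 2 + M ^ 2) := by
  set Pc : Matrix (Fin m) (Fin m) ℂ := P.map (fun x : ℝ => (x : ℂ)) with hPc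
  set Z : Matrix (Fin m) (Fin m) ℂ := Q.map (fun x : ℝ => (x : ℂ)) +
      (M * Complex.I : ℂ) • G.map (fun x : ℝ => (x : ℂ)) with hZ
  have hmap : ∀ A B : Matrix (Fin m) (Fin m) ℝ, (A * B).map (fun x : ℝ => (x : ℂ)) =
      A.map (fun x : ℝ => (x : ℂ)) * B.map (fun x : ℝ => (x : ℂ)) := fun A B =>
    Matrix.map_mul (f := Complex.ofRealHom)
  have hone : (1 : Matrix (Fin m) (Fin m) ℝ).map (fun x : ℝ => (x : ℂ)) = 1 :=
    Matrix.map_one _ Complex.ofReal_zero Complex.ofReal_one
  have h1 : Pcᵀ * Z * Pc = Matrix.diagonal (fun j => (d j : ℂ) + M * Complex.I) := by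
    rw [hZ, Matrix.mul_add, Matrix.add_mul, Matrix.mul_smul, Matrix.smul_mul]
    have e1 : Pcᵀ * Q.map (fun x : ℝ => (x : ℂ)) * Pc =
        Matrix.diagonal (fun j => (d j : ℂ)) := by
      rw [hPc, ← Matrix.transpose_map, ← hmap, ← hmap, hPQ]
      rw [Matrix.diagonal_map Complex.ofReal_zero]
    have e2 : Pcᵀ * G.map (fun x : ℝ => (x : ℂ)) * Pc = 1 := by
      rw [hPc, ← Matrix.transpose_map, ← hmap, ← hmap, hPG, hone]
    rw [e1, e2, ← Matrix.diagonal_one, ← Matrix.diagonal_smul, Matrix.diagonal_add]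
    congr 1
    funext j
    simp
  have h2 := congrArg Matrix.det h1
  rw [Matrix.det_mul, Matrix.det_mul, Matrix.det_transpose, Matrix.det_diagonal] at h2
  have hPdet : Pc.det = (P.det : ℂ) := by
    rw [hPc]
    exact (RingHom.map_det Complex.ofRealHom P).symm
  have h3 := congrArg (fun z : ℂ => ‖z‖) h2
  simp only [norm_mul, norm_prod, hPdet, Complex.norm_real, Real.norm_eq_abs] at h3
  have hfac : ∀ j, ‖(d j : ℂ) + M * Complex.I‖ = Real.sqrt (d j ^ 2 + M ^ 2) := fun j => by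
    rw [Complex.norm_add_mul_I]
  simp only [hfac] at h3
  have hpos : ∀ j, 0 < Real.sqrt (d j ^ 2 + M ^ 2) := fun j => Real.sqrt_pos.2 (by positivity)
  have hprod : 0 < ∏ j, Real.sqrt (d j ^ 2 + M ^ 2) := Finset.prod_pos fun j _ => hpos j
  have hP0 : |P.det| ≠ 0 := by
    intro h0
    rw [h0, zero_mul, zero_mul] at h3
    exact hprod.ne h3
  have hZ0 : ‖Z.det‖ ≠ 0 := by
    intro h0
    rw [h0, mul_zero, zero_mul] at h3
    exact hprod.ne h3
  have h4 := congrArg Real.log h3
  rw [Real.log_mul (mul_ne_zero hP0 hZ0) hP0, Real.log_mul hP0 hZ0,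
    Real.log_prod (fun j _ => (hpos j).ne')] at h4
  have h5 : ∀ j, Real.log (Real.sqrt (d j ^ 2 + M ^ 2)) = 1 / 2 * Real.log (d j ^ 2 + M ^ 2) := by
    intro j
    rw [Real.log_sqrt (by positivity)]
    ring
  simp only [h5] at h4
  rw [← h4]
  ring

theorem t_EIG : S_EIG := by
  intro m Q G M hQ hG hM
  obtain ⟨P, d, hd, hPG, hPQ⟩ := simdiag Q G hQ hG
  have h1 := logdet hPG hPQ M hM
  have h2 := logdet hPG hPQ 1 le_rfl
  rw [Finset.sum_range]
  have h3 : ∀ k : Fin m, lam ⊤ (qf Q) (qf G) k = d k := lam_eq hd hPG hPQ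
  simp only [h3]
  have h4 : ∀ k : Fin m, hf M (d k) = 1 / 2 * Real.log (d k ^ 2 + M ^ 2) -
      1 / 2 * Real.log (d k ^ 2 + 1 ^ 2) := by
    intro k
    unfold hf
    rw [Real.log_div (by positivity) (by positivity), one_pow]
    ring
  simp only [h4, Finset.sum_sub_distrib]
  unfold Tm
  rw [← h1, ← h2]
  simp only [Complex.ofReal_one, one_mul]
  ring

theorem t_LCONT : S_LCONT := by
  intro m G k hG hk
  obtain ⟨c, hc, hcG⟩ := posDef_lower hG
  have hcont : ∀ Q Q' : Matrix (Fin m) (Fin m) ℝ,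
      lam ⊤ (qf Q') (qf G) k ≤ lam ⊤ (qf Q) (qf G) k + (∑ i, ∑ j, |(Q' - Q) i j|) / c := by
    intro Q Q'
    have hup : ∀ A : Matrix (Fin m) (Fin m) ℝ, ∀ x,
        |qf A x| ≤ (∑ i, ∑ j, |A i j|) / c * qf G x := by
      intro A x
      refine (abs_qf_le A x).trans ?_
      have h1 : 0 ≤ ∑ i, ∑ j, |A i j| := Finset.sum_nonneg fun i _ =>
        Finset.sum_nonneg fun j _ => abs_nonneg _
      have h2 := hcG x
      calc (∑ i, ∑ j, |A i j|) * ‖x‖ ^ 2 = (∑ i, ∑ j, |A i j|) / c * (c * ‖x‖ ^ 2) := by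
            field_simp
        _ ≤ (∑ i, ∑ j, |A i j|) / c * qf G x := by
            apply mul_le_mul_of_nonneg_left h2
            positivity
    apply lam_le_add
    · intro x _
      have h1 := hup (Q' - Q) x
      rw [qf_sub] at h1
      have h2 := le_abs_self (qf Q' x - qf Q x)
      linarith
    · -- nonempty
      refine ⟨(∑ i, ∑ j, |Q i j|) / c, fun i => Pi.single (Fin.castLE hk i) 1,
        fun _ => Submodule.mem_top, fun a ha => ?_⟩
      have hsum : ∑ i, a i • (Pi.single (Fin.castLE hk i) (1 : ℝ) : Fin m → ℝ) = pad hk a := by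
        rw [sum_pad hk a (fun j => (Pi.single j (1 : ℝ) : Fin m → ℝ))]
        funext j
        rw [Finset.sum_apply]
        simp [Pi.single_apply]
      rw [hsum]
      refine ⟨posDef_qf hG _ (pad_ne hk ha), ?_⟩
      exact (le_abs_self _).trans (hup Q _)
    · apply bddBelow_mmset (C := (∑ i, ∑ j, |Q' i j|) / c)
      intro x _
      have h1 := hup Q' x
      have h2 := neg_abs_le (qf Q' x)
      linarith
  rw [continuous_iff_continuousAt]
  intro Q
  rw [ContinuousAt, tendsto_iff_norm_sub_tendsto_zero]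
  have hlim : Tendsto (fun Q' : Matrix (Fin m) (Fin m) ℝ => (∑ i, ∑ j, |(Q' - Q) i j|) / c)
      (𝓝 Q) (𝓝 0) := by
    have hct : Continuous (fun Q' : Matrix (Fin m) (Fin m) ℝ =>
        (∑ i, ∑ j, |(Q' - Q) i j|) / c) := by
      apply Continuous.div_const
      refine continuous_finsetSum _ fun i _ => continuous_finsetSum _ fun j _ => ?_
      have : Continuous (fun Q' : Matrix (Fin m) (Fin m) ℝ => (Q' - Q) i j) := by
        simp only [Matrix.sub_apply]
        exact (continuous_id.matrix_elem i j).sub continuous_const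
      exact this.abs
    have := hct.tendsto Q
    simpa using this
  refine squeeze_zero (fun _ => norm_nonneg _) (fun Q' => ?_) hlim
  rw [Real.norm_eq_abs, abs_le]
  have h1 := hcont Q Q'
  have h2 := hcont Q' Q
  have h3 : (∑ i, ∑ j, |(Q - Q') i j|) = ∑ i, ∑ j, |(Q' - Q) i j| := by
    refine Finset.sum_congr rfl fun i _ => Finset.sum_congr rfl fun j _ => ?_
    rw [Matrix.sub_apply, Matrix.sub_apply, abs_sub_comm]
  rw [h3] at h2
  constructor <;> linarith

end Pool.Agent.Y301.SA
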