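import Pool.Agent.Y301.SA.Cv

/-!
# Galerkin approximation of the min-max values (project SA, `S_GAL`)
-/

set_option autoImplicit false

open MeasureTheory ProbabilityTheory Set Filter Topology
open scoped NNReal ENNReal Matrix

namespace Pool.Agent.Y301.SA

open Pool.Agent.Y782.SA

variable {E : Type} [NormedAddCommGroup E] [InnerProductSpace ℝ E]

/-- A `C¹([0, L])`-dense sequence of test functions. -/
theorem exists_seq [FiniteDimensional ℝ E] (L : ℝ) (hL : 0 < L) :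
    ∃ g : ℕ → ℝ → E, (∀ i, g i ∈ tstL E L) ∧ ∀ f ∈ tstL E L, ∀ ε : ℝ, 0 < ε → ∃ i,
      ∀ x ∈ Icc 0 L, ‖g i x - f x‖ ≤ ε ∧ ‖deriv (g i) x - deriv f x‖ ≤ ε := by
  let Φ : tstL E L → C(Icc (0 : ℝ) L, E) × C(Icc (0 : ℝ) L, E) := fun f =>
    (⟨fun x => f.1 x, (tc f.2.1).comp continuous_subtype_val⟩,
      ⟨fun x => deriv f.1 x, (td f.2.1).comp continuous_subtype_val⟩)
  haveI : Nonempty (Set.range Φ) := ⟨⟨Φ 0, ⟨0, rfl⟩⟩⟩
  obtain ⟨u, hu⟩ := TopologicalSpace.exists_dense_seq (Set.range Φ)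
  choose g hg using fun i => (u i).2
  refine ⟨fun i => (g i : ℝ → E), fun i => (g i).2, fun f hf ε hε => ?_⟩
  obtain ⟨i, hi⟩ := hu.exists_dist_lt ⟨Φ ⟨f, hf⟩, ⟨_, rfl⟩⟩ hε
  refine ⟨i, fun x hx => ?_⟩
  have h1 : dist (Φ ⟨f, hf⟩) (Φ (g i)) < ε := by
    rw [hg i]
    exact hi
  rw [Prod.dist_eq, max_lt_iff] at h1
  constructor
  · have h2 := (ContinuousMap.dist_apply_le_dist (f := (Φ ⟨f, hf⟩).1) (g := (Φ (g i)).1)
      ⟨x, hx⟩).trans h1.1.le
    rw [dist_comm, dist_eq_norm] at h2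
    exact h2
  · have h2 := (ContinuousMap.dist_apply_le_dist (f := (Φ ⟨f, hf⟩).2) (g := (Φ (g i)).2)
      ⟨x, hx⟩).trans h1.2.le
    rw [dist_comm, dist_eq_norm] at h2
    exact h2

/-- Arbitrarily large systems. -/
theorem exists_big [Nontrivial E] (L : ℝ) (hL : 0 < L) (N : ℕ) :
    ∃ φ : Fin N → ℝ → E, (∀ i, φ i ∈ tstL E L) ∧
      ∀ c : Fin N → ℝ, c ≠ 0 → 0 < nsq (∑ i, c i • φ i) := by
  obtain ⟨e, he⟩ := exists_ne (0 : E)
  let χ : ContDiffBump (L / 2 : ℝ) :=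
    { rIn := L / 4, rOut := L / 2, rIn_pos := by positivity, rIn_lt_rOut := by linarith }
  have hsupp : ∀ x : ℝ, χ x ≠ 0 ↔ 0 < x ∧ x < L := by
    intro x
    have h1 := χ.support_eq
    have h2 : x ∈ Function.support χ ↔ x ∈ Metric.ball (L / 2) (L / 2) := by rw [h1]
    rw [Function.mem_support] at h2
    rw [h2, Real.ball_eq_Ioo, mem_Ioo]
    constructor
    · rintro ⟨h3, h4⟩; constructor <;> linarith
    · rintro ⟨h3, h4⟩; constructor <;> linarith
  have htest : ∀ i : Fin N, (fun x : ℝ => (x ^ (i : ℕ) * χ x) • e) ∈ tstL E L := by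
    intro i
    refine ⟨⟨?_, ?_⟩, ?_⟩
    · exact ((contDiff_id.pow _).mul χ.contDiff).smul contDiff_const
    · have h1 : HasCompactSupport (fun x : ℝ => x ^ (i : ℕ) * χ x) := χ.hasCompactSupport.mul_left
      exact h1.smul_right (f' := fun _ => e)
    · intro x hx
      have : χ x = 0 := by
        by_contra h
        have := ((hsupp x).1 h).2
        linarith
      simp [this]
  refine ⟨fun i x => (x ^ (i : ℕ) * χ x) • e, htest, fun c hc => ?_⟩
  have hmem : (∑ i, c i • fun x : ℝ => (x ^ (i : ℕ) * χ x) • e) ∈ tstL E L :=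
    (tstL E L).sum_mem fun i _ => (tstL E L).smul_mem _ (htest i)
  have hval : ∀ x, (∑ i, c i • fun x : ℝ => (x ^ (i : ℕ) * χ x) • e) x =
      ((∑ i, c i * x ^ (i : ℕ)) * χ x) • e := by
    intro x
    rw [Finset.sum_apply, Finset.sum_mul, Finset.sum_smul]
    refine Finset.sum_congr rfl fun i _ => ?_
    rw [Pi.smul_apply, smul_smul, mul_assoc]
  have hex : ∃ x : ℝ, 0 < x ∧ x < L ∧ (∑ i, c i * x ^ (i : ℕ)) ≠ 0 := by
    by_contra hcon
    push Not at hcon
    apply hc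
    let p : Polynomial ℝ := ∑ i : Fin N, Polynomial.C (c i) * Polynomial.X ^ (i : ℕ)
    have hp : p = 0 := by
      apply Polynomial.eq_zero_of_infinite_isRoot
      apply Set.Infinite.mono _ (Ioo_infinite hL)
      intro x hx
      have := hcon x hx.1 hx.2
      simp only [Set.mem_ofPred_eq, Polynomial.IsRoot.def]
      simpa [p, Polynomial.eval_finset_sum] using this
    funext i
    have h1 : p.coeff (i : ℕ) = c i := by
      simp only [p, Polynomial.finset_sum_coeff, Polynomial.coeff_C_mul, Polynomial.coeff_X_pow]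
      rw [Finset.sum_eq_single i]
      · simp
      · intro j _ hj
        have : (i : ℕ) ≠ (j : ℕ) := fun h => hj (Fin.ext h.symm)
        simp [this]
      · intro h; exact absurd (Finset.mem_univ i) h
    rw [← h1, hp]
    simp
  obtain ⟨x, hx0, hxL, hx⟩ := hex
  apply nsq_pos hmem.1 hx0.le
  rw [hval]
  exact smul_ne_zero (mul_ne_zero hx ((hsupp x).2 ⟨hx0, hxL⟩)) he

/-- Restriction to `[0, ∞)`. -/
noncomputable def cut : (ℝ → E) →ₗ[ℝ] (ℝ → E) where
  toFun f := fun x => if 0 ≤ x then f x else 0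
  map_add' f g := by
    funext x
    by_cases h : 0 ≤ x <;> simp [h]
  map_smul' t f := by
    funext x
    by_cases h : 0 ≤ x <;> simp [h]

theorem cut_apply (f : ℝ → E) {x : ℝ} (hx : 0 ≤ x) : cut f x = f x := if_pos hx

theorem cut_eq {f g : ℝ → E} (h : cut f = cut g) (x : ℝ) (hx : 0 ≤ x) : f x = g x := by
  rw [← cut_apply f hx, h, cut_apply g hx]

theorem nsq_pos_of_cut {f : ℝ → E} (hf : IsTest f) (h : cut f ≠ 0) : 0 < nsq f := by
  obtain ⟨x, hx⟩ := Function.ne_iff.1 h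
  have hx0 : 0 ≤ x := by
    by_contra hneg
    apply hx
    show (if 0 ≤ x then f x else 0) = 0
    rw [if_neg hneg]
  rw [cut_apply f hx0] at hx
  exact nsq_pos hf hx0 hx

theorem nsq_pos_of_li {L : ℝ} {m : ℕ} {v : Fin m → ℝ → E} (hv : ∀ i, v i ∈ tstL E L)
    (hli : LinearIndependent ℝ (fun i => cut (v i))) (c : Fin m → ℝ) (hc : c ≠ 0) :
    0 < nsq (∑ i, c i • v i) := by
  apply nsq_pos_of_cut
  · exact ((tstL E L).sum_mem fun i _ => (tstL E L).smul_mem _ (hv i)).1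
  · intro h0
    rw [map_sum] at h0
    simp only [map_smul] at h0
    apply hc
    funext i
    exact Fintype.linearIndependent_iff.1 hli c h0 i

/-- The systems. -/
theorem exists_sys {L : ℝ} (g : ℕ → ℝ → E) (hg : ∀ i, g i ∈ tstL E L) (p : ℕ) :
    ∃ (r : ℕ) (v : Fin r → ℝ → E), (∀ i, v i ∈ tstL E L) ∧
      LinearIndependent ℝ (fun i => cut (v i)) ∧
      ∀ i ≤ p, ∃ w ∈ Submodule.span ℝ (Set.range v), ∀ x, 0 ≤ x → w x = g i x := by
  classical
  obtain ⟨ι, a, hinj, hspan, hli⟩ :=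
    exists_linearIndependent' ℝ (fun i : Fin (p + 1) => cut (g i))
  haveI : Finite ι := Finite.of_injective a hinj
  haveI := Fintype.ofFinite ι
  let e : Fin (Fintype.card ι) ≃ ι := (Fintype.equivFin ι).symm
  refine ⟨Fintype.card ι, fun i => g (a (e i)), fun i => hg _, ?_, fun i hi => ?_⟩
  · have := hli.comp e e.injective
    exact this
  · have h1 : cut (g i) ∈ Submodule.span ℝ (Set.range ((fun i : Fin (p + 1) => cut (g i)) ∘ a)) := by
      rw [hspan]
      exact Submodule.subset_span ⟨⟨i, by omega⟩, rfl⟩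
    have h2 : Set.range ((fun i : Fin (p + 1) => cut (g i)) ∘ a) =
        cut '' (Set.range fun i => g (a (e i))) := by
      ext y
      constructor
      · rintro ⟨j, rfl⟩
        exact ⟨g (a j), ⟨e.symm j, by simp⟩, rfl⟩
      · rintro ⟨_, ⟨j, rfl⟩, rfl⟩
        exact ⟨e j, rfl⟩
    rw [h2, Submodule.span_image] at h1
    obtain ⟨w, hw, hwg⟩ := h1
    exact ⟨w, hw, cut_eq hwg⟩

theorem span_le {L : ℝ} {r : ℕ} {v : Fin r → ℝ → E} (hv : ∀ i, v i ∈ tstL E L) :
    Submodule.span ℝ (Set.range v) ≤ tstL E L := by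
  rw [Submodule.span_le]
  rintro _ ⟨i, rfl⟩
  exact hv i

theorem tstL_le (L : ℝ) : tstL E L ≤ tst E := fun _ hf => hf.1

/-- The lower bound of the quotients. -/
theorem low {κ C : ℝ} {S : E →L[ℝ] E} {W : ℝ → E →L[ℝ] E} (hκ : 0 < κ) (hLB : LB κ C S W)
    {U : Submodule ℝ (ℝ → E)} (hU : U ≤ tst E) : ∀ f ∈ U, -C * nsq f ≤ form κ S W f := by
  intro f hf
  have h1 := hLB f (hU hf)
  have h2 : 0 ≤ dsq f := integral_nonneg fun x => sq_nonneg _
  have h3 : 0 ≤ xsq f := setIntegral_nonneg measurableSet_Ioi fun x hx =>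
    mul_nonneg (le_of_lt hx) (sq_nonneg _)
  have h4 : 0 ≤ κ * xsq f := mul_nonneg hκ.le h3
  linarith

/-- Nonempty. -/
theorem nonempty_of_tuple (hB : S_BASE) [FiniteDimensional ℝ E] {κ : ℝ} {S : E →L[ℝ] E}
    {W : ℝ → E →L[ℝ] E} (hS : Sym S) (hW : GoodW W) {U : Submodule ℝ (ℝ → E)} {k : ℕ}
    (φ : Fin (k + 1) → ℝ → E) (hφU : ∀ i, φ i ∈ U) (hφ : ∀ i, IsTest (φ i))
    (hpos : ∀ c : Fin (k + 1) → ℝ, c ≠ 0 → 0 < nsq (∑ i, c i • φ i)) :
    (mmset U (form κ S W) nsq k).Nonempty := by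
  obtain ⟨-, -, hQ, hG, -⟩ := hB E κ S W hS hW (k + 1) φ hφ
  have hpos' : ∀ c, c ≠ 0 → 0 < qf (matG φ) c := fun c hc => by rw [hG]; exact hpos c hc
  obtain ⟨δ, hδ, hlow⟩ := quad_lower (continuous_qf _) (qf_smul _) hpos'
  obtain ⟨K, hK, hup⟩ := quad_upper (continuous_qf (matQ κ S W φ)) (qf_smul _)
  refine ⟨K / δ, φ, hφU, fun c hc => ⟨hpos c hc, ?_⟩⟩
  rw [← hQ, ← hG]
  refine (le_abs_self _).trans ((hup c).trans ?_)
  calc K * ‖c‖ ^ 2 = K / δ * (δ * ‖c‖ ^ 2) := by field_simp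
    _ ≤ K / δ * qf (matG φ) c := mul_le_mul_of_nonneg_left (hlow c) (by positivity)

/-- Approximation of a tuple by the dense sequence. -/
theorem approx (hB : S_BASE) [FiniteDimensional ℝ E] {L : ℝ} (hL : 0 < L) {g : ℕ → ℝ → E}
    (hg : ∀ i, g i ∈ tstL E L) (hd : ∀ f ∈ tstL E L, ∀ ε : ℝ, 0 < ε → ∃ i,
      ∀ x ∈ Icc 0 L, ‖g i x - f x‖ ≤ ε ∧ ‖deriv (g i) x - deriv f x‖ ≤ ε)
    {κ : ℝ} {S : E →L[ℝ] E} {W : ℝ → E →L[ℝ] E} (hS : Sym S) (hW : GoodW W) {m : ℕ}
    (φ : Fin m → ℝ → E) (hφ : ∀ i, φ i ∈ tstL E L) {s ε : ℝ} (hε : 0 < ε)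
    (hs : ∀ c : Fin m → ℝ, c ≠ 0 → 0 < nsq (∑ i, c i • φ i) ∧
      form κ S W (∑ i, c i • φ i) ≤ s * nsq (∑ i, c i • φ i)) :
    ∃ a : Fin m → ℕ, ∀ c : Fin m → ℝ, c ≠ 0 → 0 < nsq (∑ i, c i • g (a i)) ∧
      form κ S W (∑ i, c i • g (a i)) ≤ (s + ε) * nsq (∑ i, c i • g (a i)) := by
  have h1 : ∀ (n : ℕ) (i : Fin m), ∃ j, ∀ x ∈ Icc 0 L, ‖g j x - φ i x‖ ≤ 1 / ((n : ℝ) + 1) ∧
      ‖deriv (g j) x - deriv (φ i) x‖ ≤ 1 / ((n : ℝ) + 1) := fun n i =>
    hd (φ i) (hφ i) _ (by positivity)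
  choose b hb using h1
  have hcv : ∀ i, Cv L (fun n => g (b n i)) (φ i) := fun i =>
    { mem := fun n => hg _
      mem' := hφ i
      err := fun n => hb n i }
  obtain ⟨-, -, hQ, hG, -⟩ := hB E κ S W hS hW m φ fun i => (hφ i).1
  have hQn : ∀ i j, Tendsto (fun n => matQ κ S W (fun i => g (b n i)) i j) atTop
      (𝓝 (matQ κ S W φ i j)) := fun i j => bform_tendsto κ S hL hW (hcv i) (hcv j)
  have hGn : ∀ i j, Tendsto (fun n => matG (fun i => g (b n i)) i j) atTop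
      (𝓝 (matG φ i j)) := fun i j => gram_tendsto (hcv i) (hcv j)
  have hpos : ∀ c, c ≠ 0 → 0 < qf (matG φ) c := fun c hc => by rw [hG]; exact (hs c hc).1
  have hs' : ∀ c, qf (matQ κ S W φ) c ≤ s * qf (matG φ) c := by
    intro c
    by_cases hc : c = 0
    · subst hc
      have e1 : ∀ A : Matrix (Fin m) (Fin m) ℝ, qf A 0 = 0 := fun A => by simp [qf]
      rw [e1, e1, mul_zero]
    · rw [hQ, hG]
      exact (hs c hc).2
  obtain ⟨n, hn⟩ := (pert_qf hQn hGn hpos hε hs').exists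
  obtain ⟨-, -, hQ', hG', -⟩ := hB E κ S W hS hW m (fun i => g (b n i)) fun i => (hg _).1
  refine ⟨b n, fun c hc => ?_⟩
  have h2 := hn c hc
  rw [hQ', hG'] at h2
  exact h2

theorem goodW_zero : GoodW (fun _ : ℝ => (0 : E →L[ℝ] E)) :=
  { meas := stronglyMeasurable_const
    bdd := fun _ => ⟨0, fun _ _ => by simp⟩
    sym := fun _ u v => by simp
    zero := rfl }

theorem sym_zero : Sym (0 : E →L[ℝ] E) := fun u v => by simp

theorem t_GAL (hB : S_BASE) : S_GAL := by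
  intro E _ _ _ _ L hL
  obtain ⟨g, hg, hd⟩ := exists_seq (E := E) L hL
  choose r v hv hli hsp using exists_sys g hg
  have hpos : ∀ p, ∀ c : Fin (r p) → ℝ, c ≠ 0 → 0 < nsq (∑ i, c i • v p i) := fun p =>
    nsq_pos_of_li (hv p) (hli p)
  have hsys : ∀ p, Sys (v p) := fun p => ⟨fun i => (hv p i).1, hpos p⟩
  -- replacing the members of the dense sequence by members of the span
  have hrep : ∀ {m : ℕ} (a : Fin m → ℕ) (p : ℕ), (∀ i, a i ≤ p) →
      ∃ w : Fin m → ℝ → E, (∀ i, w i ∈ Submodule.span ℝ (Set.range (v p))) ∧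
        ∀ c : Fin m → ℝ, ∀ x, 0 ≤ x → (∑ i, c i • w i) x = (∑ i, c i • g (a i)) x := by
    intro m a p hap
    choose w hw hwx using fun i => hsp p (a i) (hap i)
    refine ⟨w, hw, fun c x hx => ?_⟩
    rw [Finset.sum_apply, Finset.sum_apply]
    refine Finset.sum_congr rfl fun i _ => ?_
    rw [Pi.smul_apply, Pi.smul_apply, hwx i x hx]
  have hr : Tendsto r atTop atTop := by
    rw [tendsto_atTop]
    intro N
    obtain ⟨φ, hφ, hφpos⟩ := exists_big (E := E) L hL N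
    obtain ⟨-, -, hQ, hG, -⟩ := hB E 0 0 (fun _ => 0) sym_zero goodW_zero N φ fun i => (hφ i).1
    have hpos' : ∀ c, c ≠ 0 → 0 < qf (matG φ) c := fun c hc => by rw [hG]; exact hφpos c hc
    obtain ⟨δ, hδ, hlow⟩ := quad_lower (continuous_qf _) (qf_smul _) hpos'
    obtain ⟨K, hK, hup⟩ := quad_upper (continuous_qf (matQ 0 0 (fun _ => 0) φ)) (qf_smul _)
    have hs : ∀ c : Fin N → ℝ, c ≠ 0 → 0 < nsq (∑ i, c i • φ i) ∧
        form 0 0 (fun _ => 0) (∑ i, c i • φ i) ≤ K / δ * nsq (∑ i, c i • φ i) := by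
      intro c hc
      refine ⟨hφpos c hc, ?_⟩
      rw [← hQ, ← hG]
      refine (le_abs_self _).trans ((hup c).trans ?_)
      calc K * ‖c‖ ^ 2 = K / δ * (δ * ‖c‖ ^ 2) := by field_simp
        _ ≤ K / δ * qf (matG φ) c := mul_le_mul_of_nonneg_left (hlow c) (by positivity)
    obtain ⟨a, ha⟩ := approx hB hL hg hd sym_zero goodW_zero φ hφ one_pos hs
    filter_upwards [eventually_ge_atTop (Finset.univ.sup a)] with p hp
    obtain ⟨w, hw, hwx⟩ := hrep a p fun i => (Finset.le_sup (Finset.mem_univ i)).trans hp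
    have hwli : LinearIndependent ℝ w := by
      rw [Fintype.linearIndependent_iff]
      intro c hc0 i
      by_contra hci
      have hc : c ≠ 0 := fun h => hci (by rw [h]; rfl)
      have h1 := (ha c hc).1
      rw [← nsq_congr (hwx c), hc0] at h1
      simp [nsq] at h1
    have hwli' : LinearIndependent ℝ
        (fun i => (⟨w i, hw i⟩ : Submodule.span ℝ (Set.range (v p)))) := by
      apply LinearIndependent.of_comp (Submodule.span ℝ (Set.range (v p))).subtype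
      exact hwli
    haveI : FiniteDimensional ℝ (Submodule.span ℝ (Set.range (v p))) :=
      FiniteDimensional.span_of_finite ℝ (Set.finite_range _)
    have h2 := hwli'.fintype_card_le_finrank
    have h3 := finrank_range_le_card (R := ℝ) (v p)
    rw [Fintype.card_fin] at h2 h3
    exact h2.trans h3
  refine ⟨r, v, hsys, hv, hr, ?_⟩
  intro κ S W C hκ hS hW hLB k
  have hne : ∀ p, k < r p →
      (mmset (Submodule.span ℝ (Set.range (v p))) (form κ S W) nsq k).Nonempty := by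
    intro p hp
    refine nonempty_of_tuple hB hS hW (fun i => v p (Fin.castLE hp i))
      (fun i => Submodule.subset_span ⟨_, rfl⟩) (fun i => (hv p _).1) fun c hc => ?_
    rw [sum_pad hp c (v p)]
    exact hpos p _ (pad_ne hp hc)
  have hsub : ∀ p, mmset (Submodule.span ℝ (Set.range (v p))) (form κ S W) nsq k ⊆
      mmset (tstL E L) (form κ S W) nsq k := fun p => mmset_mono (span_le (hv p)) _ _ _
  have hrk : ∀ᶠ p in atTop, k < r p := hr.eventually_gt_atTop k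
  obtain ⟨p0, hp0⟩ := hrk.exists
  have hneL : (mmset (tstL E L) (form κ S W) nsq k).Nonempty := (hne p0 hp0).mono (hsub p0)
  have hbdL : BddBelow (mmset (tstL E L) (form κ S W) nsq k) :=
    bddBelow_mmset (low hκ hLB (tstL_le L))
  refine ⟨hneL, hne, ?_⟩
  rw [tendsto_order]
  constructor
  · intro y hy
    filter_upwards [hrk] with p hp
    exact hy.trans_le (csInf_le_csInf hbdL (hne p hp) (hsub p))
  · intro y hy
    obtain ⟨s, hs, hsy⟩ := exists_lt_of_csInf_lt hneL hy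
    obtain ⟨φ, hφ, hφs⟩ := hs
    have hε : 0 < (y - s) / 2 := by linarith
    obtain ⟨a, ha⟩ := approx hB hL hg hd hS hW φ hφ hε hφs
    filter_upwards [eventually_ge_atTop (Finset.univ.sup a)] with p hp
    obtain ⟨w, hw, hwx⟩ := hrep a p fun i => (Finset.le_sup (Finset.mem_univ i)).trans hp
    have hmem : s + (y - s) / 2 ∈
        mmset (Submodule.span ℝ (Set.range (v p))) (form κ S W) nsq k := by
      refine ⟨w, hw, fun c hc => ?_⟩
      have h1 := ha c hc
      rw [nsq_congr (hwx c), form_congr κ S W (hwx c)]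
      exact h1
    have hbd : BddBelow (mmset (Submodule.span ℝ (Set.range (v p))) (form κ S W) nsq k) :=
      hbdL.mono (hsub p)
    have h2 := csInf_le hbd hmem
    unfold lam
    linarith

end Pool.Agent.Y301.SA
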