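import Pool.Agent.Y782.SA.Stm

/-!
# Quadratic functions in finitely many variables, min-max values (project SA)
-/

set_option autoImplicit false

open MeasureTheory ProbabilityTheory Set Filter Topology
open scoped NNReal ENNReal Matrix

namespace Pool.Agent.Y301.SA

open Pool.Agent.Y782.SA

/-- A continuous, homogeneous function of degree two which is positive away from zero is bounded
below by a multiple of the squared norm. -/
theorem quad_lower {m : ℕ} {q : (Fin m → ℝ) → ℝ} (hc : Continuous q)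
    (hh : ∀ (t : ℝ) x, q (t • x) = t ^ 2 * q x) (hp : ∀ x, x ≠ 0 → 0 < q x) :
    ∃ c : ℝ, 0 < c ∧ ∀ x, c * ‖x‖ ^ 2 ≤ q x := by
  have h0 : q 0 = 0 := by
    have := hh 0 0
    simpa using this
  by_cases hne : (Metric.sphere (0 : Fin m → ℝ) 1).Nonempty
  · obtain ⟨x0, hx0, hmin⟩ := (isCompact_sphere (0 : Fin m → ℝ) 1).exists_isMinOn hne
      hc.continuousOn
    have hx0' : ‖x0‖ = 1 := by simpa using hx0
    have hx0n : x0 ≠ 0 := by
      rintro rfl
      simp at hx0'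
    refine ⟨q x0, hp x0 hx0n, fun x => ?_⟩
    by_cases hx : x = 0
    · subst hx; simp [h0]
    · have hn : 0 < ‖x‖ := norm_pos_iff.2 hx
      have h1 : (‖x‖⁻¹ • x) ∈ Metric.sphere (0 : Fin m → ℝ) 1 := by
        rw [mem_sphere_zero_iff_norm, norm_smul, norm_inv, norm_norm, inv_mul_cancel₀ hn.ne']
      have h2 : q x0 ≤ q (‖x‖⁻¹ • x) := hmin h1
      rw [hh] at h2
      have h3 : q x0 * ‖x‖ ^ 2 ≤ (‖x‖⁻¹) ^ 2 * q x * ‖x‖ ^ 2 :=
        mul_le_mul_of_nonneg_right h2 (by positivity)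
      calc q x0 * ‖x‖ ^ 2 ≤ (‖x‖⁻¹) ^ 2 * q x * ‖x‖ ^ 2 := h3
        _ = q x := by field_simp
  · refine ⟨1, one_pos, fun x => ?_⟩
    have hx : x = 0 := by
      by_contra hx
      apply hne
      have hn : 0 < ‖x‖ := norm_pos_iff.2 hx
      exact ⟨‖x‖⁻¹ • x, by
        rw [mem_sphere_zero_iff_norm, norm_smul, norm_inv, norm_norm, inv_mul_cancel₀ hn.ne']⟩
    subst hx
    simp [h0]

/-- Upper bound of a continuous homogeneous function of degree two. -/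
theorem quad_upper {m : ℕ} {q : (Fin m → ℝ) → ℝ} (hc : Continuous q)
    (hh : ∀ (t : ℝ) x, q (t • x) = t ^ 2 * q x) :
    ∃ K : ℝ, 0 ≤ K ∧ ∀ x, |q x| ≤ K * ‖x‖ ^ 2 := by
  have h0 : q 0 = 0 := by
    have := hh 0 0
    simpa using this
  obtain ⟨K, hK⟩ := (isCompact_sphere (0 : Fin m → ℝ) 1).exists_bound_of_continuousOn
    hc.continuousOn
  refine ⟨max K 0, le_max_right _ _, fun x => ?_⟩
  by_cases hx : x = 0
  · subst hx; simp [h0]
  · have hn : 0 < ‖x‖ := norm_pos_iff.2 hx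
    have h1 : (‖x‖⁻¹ • x) ∈ Metric.sphere (0 : Fin m → ℝ) 1 := by
      rw [mem_sphere_zero_iff_norm, norm_smul, norm_inv, norm_norm, inv_mul_cancel₀ hn.ne']
    have h2 := hK _ h1
    rw [hh, Real.norm_eq_abs, abs_mul, abs_of_nonneg (sq_nonneg (‖x‖⁻¹))] at h2
    have h3 : (‖x‖⁻¹) ^ 2 * |q x| * ‖x‖ ^ 2 ≤ max K 0 * ‖x‖ ^ 2 :=
      mul_le_mul_of_nonneg_right (h2.trans (le_max_left _ _)) (by positivity)
    calc |q x| = (‖x‖⁻¹) ^ 2 * |q x| * ‖x‖ ^ 2 := by field_simp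
      _ ≤ max K 0 * ‖x‖ ^ 2 := h3

theorem qf_eq {m : ℕ} (Q : Matrix (Fin m) (Fin m) ℝ) (x : Fin m → ℝ) :
    qf Q x = ∑ i, ∑ j, x i * (Q i j * x j) := by
  unfold qf
  simp only [dotProduct, Matrix.mulVec, Finset.mul_sum]

theorem qf_smul {m : ℕ} (Q : Matrix (Fin m) (Fin m) ℝ) (t : ℝ) (x : Fin m → ℝ) :
    qf Q (t • x) = t ^ 2 * qf Q x := by
  rw [qf_eq, qf_eq, Finset.mul_sum]
  refine Finset.sum_congr rfl fun i _ => ?_
  rw [Finset.mul_sum]
  refine Finset.sum_congr rfl fun j _ => ?_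
  simp only [Pi.smul_apply, smul_eq_mul]
  ring

theorem continuous_qf {m : ℕ} (Q : Matrix (Fin m) (Fin m) ℝ) : Continuous (qf Q) := by
  have : qf Q = fun x => ∑ i, ∑ j, x i * (Q i j * x j) := by
    funext x; exact qf_eq Q x
  rw [this]
  fun_prop

theorem abs_qf_le {m : ℕ} (Q : Matrix (Fin m) (Fin m) ℝ) (x : Fin m → ℝ) :
    |qf Q x| ≤ (∑ i, ∑ j, |Q i j|) * ‖x‖ ^ 2 := by
  rw [qf_eq, Finset.sum_mul]
  refine (Finset.abs_sum_le_sum_abs _ _).trans (Finset.sum_le_sum fun i _ => ?_)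
  rw [Finset.sum_mul]
  refine (Finset.abs_sum_le_sum_abs _ _).trans (Finset.sum_le_sum fun j _ => ?_)
  rw [abs_mul, abs_mul]
  have h1 : |x i| ≤ ‖x‖ := norm_le_pi_norm x i
  have h2 : |x j| ≤ ‖x‖ := norm_le_pi_norm x j
  calc |x i| * (|Q i j| * |x j|) = |Q i j| * (|x i| * |x j|) := by ring
    _ ≤ |Q i j| * (‖x‖ * ‖x‖) := by gcongr
    _ = |Q i j| * ‖x‖ ^ 2 := by ring

theorem qf_sub {m : ℕ} (Q Q' : Matrix (Fin m) (Fin m) ℝ) (x : Fin m → ℝ) :
    qf (Q - Q') x = qf Q x - qf Q' x := by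
  unfold qf
  rw [Matrix.sub_mulVec, dotProduct_sub]

theorem posDef_qf {m : ℕ} {G : Matrix (Fin m) (Fin m) ℝ} (hG : G.PosDef) (x : Fin m → ℝ)
    (hx : x ≠ 0) : 0 < qf G x := by
  have := hG.dotProduct_mulVec_pos hx
  simpa [qf] using this

theorem posDef_lower {m : ℕ} {G : Matrix (Fin m) (Fin m) ℝ} (hG : G.PosDef) :
    ∃ c : ℝ, 0 < c ∧ ∀ x, c * ‖x‖ ^ 2 ≤ qf G x :=
  quad_lower (continuous_qf G) (qf_smul G) (posDef_qf hG)

section minmax

variable {X : Type} [AddCommGroup X] [Module ℝ X]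

/-- The elements of `mmset` are bounded below if the form is. -/
theorem le_of_mem_mmset {U : Submodule ℝ X} {q n : X → ℝ} {k : ℕ} {C : ℝ}
    (h : ∀ x ∈ U, -C * n x ≤ q x) {s : ℝ} (hs : s ∈ mmset U q n k) : -C ≤ s := by
  obtain ⟨φ, hφ, hc⟩ := hs
  have hne : (fun _ : Fin (k + 1) => (1 : ℝ)) ≠ 0 := by
    intro h0
    have := congrFun h0 0
    simp at this
  obtain ⟨h1, h2⟩ := hc _ hne
  have hm : ∑ i, (fun _ : Fin (k + 1) => (1 : ℝ)) i • φ i ∈ U :=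
    U.sum_mem fun i _ => U.smul_mem _ (hφ i)
  have h3 := (h _ hm).trans h2
  exact le_of_mul_le_mul_right h3 h1

theorem bddBelow_mmset {U : Submodule ℝ X} {q n : X → ℝ} {k : ℕ} {C : ℝ}
    (h : ∀ x ∈ U, -C * n x ≤ q x) : BddBelow (mmset U q n k) :=
  ⟨-C, fun _ hs => le_of_mem_mmset h hs⟩

theorem mmset_mono {U V : Submodule ℝ X} (hUV : U ≤ V) (q n : X → ℝ) (k : ℕ) :
    mmset U q n k ⊆ mmset V q n k := by
  rintro s ⟨φ, hφ, hc⟩
  exact ⟨φ, fun i => hUV (hφ i), hc⟩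

theorem mmset_shift {U : Submodule ℝ X} {q q' n : X → ℝ} {k : ℕ} {d : ℝ}
    (h : ∀ x ∈ U, q' x ≤ q x + d * n x) {s : ℝ} (hs : s ∈ mmset U q n k) :
    s + d ∈ mmset U q' n k := by
  obtain ⟨φ, hφ, hc⟩ := hs
  refine ⟨φ, hφ, fun c hc0 => ⟨(hc c hc0).1, ?_⟩⟩
  have hm : ∑ i, c i • φ i ∈ U := U.sum_mem fun i _ => U.smul_mem _ (hφ i)
  have h1 := h _ hm
  have h2 := (hc c hc0).2
  linarith

theorem lam_le_add {U : Submodule ℝ X} {q q' n : X → ℝ} {k : ℕ} {d : ℝ}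
    (h : ∀ x ∈ U, q' x ≤ q x + d * n x) (hne : (mmset U q n k).Nonempty)
    (hb : BddBelow (mmset U q' n k)) : lam U q' n k ≤ lam U q n k + d := by
  unfold lam
  have h1 : sInf (mmset U q' n k) - d ≤ sInf (mmset U q n k) := by
    apply le_csInf hne
    intro s hs
    have := csInf_le hb (mmset_shift h hs)
    linarith
  linarith

end minmax

/-- The standard vectors: padding by zeros. -/
noncomputable def pad {k m : ℕ} (h : k ≤ m) (c : Fin k → ℝ) : Fin m → ℝ :=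
  fun j => if hj : (j : ℕ) < k then c ⟨j, hj⟩ else 0

theorem pad_castLE {k m : ℕ} (h : k ≤ m) (c : Fin k → ℝ) (i : Fin k) :
    pad h c (Fin.castLE h i) = c i := by
  unfold pad
  rw [dif_pos (show ((Fin.castLE h i : Fin m) : ℕ) < k from i.2)]
  rfl

theorem pad_ne {k m : ℕ} (h : k ≤ m) {c : Fin k → ℝ} (hc : c ≠ 0) : pad h c ≠ 0 := by
  intro h0
  apply hc
  funext i
  rw [← pad_castLE h c i, h0]
  rfl

theorem sum_pad {X : Type} [AddCommGroup X] [Module ℝ X] {k m : ℕ} (h : k ≤ m) (c : Fin k → ℝ)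
    (v : Fin m → X) : ∑ i, c i • v (Fin.castLE h i) = ∑ j, pad h c j • v j := by
  classical
  have h1 : ∑ j, pad h c j • v j =
      ∑ j ∈ Finset.univ.image (Fin.castLE h), pad h c j • v j := by
    symm
    apply Finset.sum_subset (Finset.subset_univ _)
    intro j _ hj
    have : ¬ (j : ℕ) < k := by
      intro hlt
      apply hj
      rw [Finset.mem_image]
      exact ⟨⟨j, hlt⟩, Finset.mem_univ _, by ext; rfl⟩
    unfold pad
    rw [dif_neg this, zero_smul]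
  rw [h1, Finset.sum_image (fun a _ b _ hab => (Fin.castLE_injective h) hab)]
  refine Finset.sum_congr rfl fun i _ => ?_
  rw [pad_castLE]

end Pool.Agent.Y301.SA
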